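import Mathlib
import Pool.Agent.N126.IS.Stm4

/-!
# IS2/PID: the points over a number field have unimodular coordinates in a fixed finitely
generated ring
-/

set_option autoImplicit false

namespace Pool.Agent.N323.IS

open Pool.Agent.N126.IS NumberField nonZeroDivisors

/-- the statement for a number field `E` in `k` -/
theorem pid_aux {k : Type} [Field k] [CharZero k] (E : IntermediateField ℚ k) [NumberField E]
    (n : ℕ) : ∃ T' : Finset k, ∀ x : Fin (n + 1) → k, x ≠ 0 → (∀ i, x i ∈ E) →
      ∃ a : k, a ≠ 0 ∧ (∀ i, a * x i ∈ Subring.closure (T' : Set k)) ∧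
        ∃ c : Fin (n + 1) → k, (∀ i, c i ∈ Subring.closure (T' : Set k)) ∧
          ∑ i, c i * (a * x i) = 1 := by
  classical
  let O := 𝓞 E
  let φ : O →+* k := (algebraMap E k).comp (algebraMap O E)
  have hφ : Function.Injective φ :=
    (algebraMap E k).injective.comp (FaithfulSMul.algebraMap_injective O E)
  have hφ0 : ∀ o : O, φ o = 0 → o = 0 := fun o h => hφ (by rw [h, map_zero])
  have : Finite (ClassGroup O) := inferInstance
  have := Fintype.ofFinite (ClassGroup O)
  have hI : ∀ C : ClassGroup O, ∃ I : (Ideal O)⁰, ClassGroup.mk0 I = C :=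
    fun C => ClassGroup.mk0_surjective C
  choose I hI using hI
  have he : ∀ C : ClassGroup O, ∃ e : O, e ∈ (I C : Ideal O) ∧ e ≠ 0 := by
    intro C
    have h1 : (I C : Ideal O) ≠ ⊥ := nonZeroDivisors.ne_zero (I C).2
    obtain ⟨e, he1, he2⟩ := Submodule.exists_mem_ne_zero_of_ne_bot h1
    exact ⟨e, he1, he2⟩
  choose e he1 he2 using he
  set N : O := ∏ C, e C with hN
  have hN0 : N ≠ 0 := Finset.prod_ne_zero_iff.2 fun C _ => he2 C
  have hNI : ∀ C, N ∈ (I C : Ideal O) := by
    intro C
    obtain ⟨t, ht⟩ := Finset.dvd_prod_of_mem e (Finset.mem_univ C)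
    rw [hN, ht]
    exact Ideal.mul_mem_right _ _ (he1 C)
  obtain ⟨G, hG⟩ := (Module.Finite.fg_top : (⊤ : Submodule ℤ O).FG)
  refine ⟨insert (φ N)⁻¹ (G.image φ), fun x hx hxE => ?_⟩
  set R' := Subring.closure ((insert (φ N)⁻¹ (G.image φ) : Finset k) : Set k) with hR'
  have hO : ∀ o : O, φ o ∈ R' := by
    intro o
    have ho : o ∈ Submodule.span ℤ (G : Set O) := by
      rw [hG]
      exact Submodule.mem_top
    induction ho using Submodule.span_induction with
    | mem y hy =>
      apply Subring.subset_closure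
      rw [Finset.coe_insert, Finset.coe_image]
      exact Or.inr ⟨y, hy, rfl⟩
    | zero => rw [map_zero]; exact R'.zero_mem
    | add y z _ _ h1 h2 => rw [map_add]; exact R'.add_mem h1 h2
    | smul m y _ h1 => rw [map_zsmul]; exact R'.zsmul_mem h1 m
  have hNinv : (φ N)⁻¹ ∈ R' := by
    apply Subring.subset_closure
    rw [Finset.coe_insert]
    exact Or.inl rfl
  obtain ⟨b, hb⟩ := IsLocalization.exist_integer_multiples_of_finite (O⁰)
    (fun i => (⟨x i, hxE i⟩ : E))
  have hb' : ∀ i, ∃ r : O, algebraMap O E r = (b : O) • (⟨x i, hxE i⟩ : E) := fun i => hb i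
  choose z hz using hb'
  have hb0 : (b : O) ≠ 0 := nonZeroDivisors.ne_zero b.2
  have hzx : ∀ i, φ (z i) = φ b * x i := by
    intro i
    show algebraMap E k (algebraMap O E (z i)) = algebraMap E k (algebraMap O E b) * x i
    rw [hz i, Algebra.smul_def, map_mul]
    rfl
  set J : Ideal O := Ideal.span (Set.range z) with hJ
  obtain ⟨i0, hi0⟩ : ∃ i, x i ≠ 0 := by
    by_contra hcon
    push Not at hcon
    exact hx (funext hcon)
  have hφb : φ b ≠ 0 := fun h => hb0 (hφ0 _ h)
  have hzi0 : z i0 ≠ 0 := by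
    intro h
    have h1 := hzx i0
    rw [h, map_zero] at h1
    exact mul_ne_zero hφb hi0 h1.symm
  have hzJ : ∀ i, z i ∈ J := fun i => Ideal.subset_span ⟨i, rfl⟩
  have hJ0 : J ≠ 0 := by
    intro h
    have h1 := hzJ i0
    rw [h] at h1
    exact hzi0 h1
  have hJm : J ∈ (Ideal O)⁰ := mem_nonZeroDivisors_of_ne_zero hJ0
  set C : ClassGroup O := (ClassGroup.mk0 ⟨J, hJm⟩)⁻¹ with hC
  have hprod : ClassGroup.mk0 (⟨J, hJm⟩ * I C) = 1 := by
    rw [map_mul, hI C, hC, mul_inv_cancel]
  have hprin : (J * (I C : Ideal O)).IsPrincipal := by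
    have h1 := (ClassGroup.mk0_eq_one_iff (I := J * (I C : Ideal O))
      (mul_mem hJm (I C).2)).1 hprod
    exact h1
  obtain ⟨β, hβ⟩ := hprin
  have hβ' : J * (I C : Ideal O) = Ideal.span {β} := hβ
  have hβ0 : β ≠ 0 := by
    intro h
    rw [h, Ideal.span_singleton_eq_bot.2 rfl] at hβ'
    rcases Ideal.mul_eq_bot.1 hβ' with h1 | h1
    · exact hJ0 h1
    · exact nonZeroDivisors.ne_zero (I C).2 h1
  have hφβ : φ β ≠ 0 := fun h => hβ0 (hφ0 _ h)
  have hφN : φ N ≠ 0 := fun h => hN0 (hφ0 _ h)
  refine ⟨φ b / φ β, div_ne_zero hφb hφβ, fun i => ?_, ?_⟩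
  · have h1 : z i * N ∈ Ideal.span {β} := by
      rw [← hβ']
      exact Ideal.mul_mem_mul (hzJ i) (hNI C)
    obtain ⟨t, ht⟩ := Ideal.mem_span_singleton'.1 h1
    have h2 : φ b / φ β * x i = φ t * (φ N)⁻¹ := by
      have h3 : φ (z i) * φ N = φ t * φ β := by rw [← map_mul, ← map_mul, ht]
      rw [hzx i] at h3
      field_simp
      linear_combination h3
    rw [h2]
    exact R'.mul_mem (hO t) hNinv
  · have h1 : β ∈ J := by
      have h2 : β ∈ J * (I C : Ideal O) := by
        rw [hβ']
        exact Ideal.subset_span (Set.mem_singleton β)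
      have h3 : J * (I C : Ideal O) ≤ J := Ideal.mul_le_left
      exact h3 h2
    rw [hJ, Ideal.mem_span_range_iff_exists_fun] at h1
    obtain ⟨c, hc⟩ := h1
    refine ⟨fun i => φ (c i), fun i => hO (c i), ?_⟩
    have h2 : ∑ i, φ (c i) * (φ b * x i) = φ β := by
      rw [← hc, map_sum]
      refine Finset.sum_congr rfl fun i _ => ?_
      rw [map_mul, hzx i]
    calc ∑ i, φ (c i) * (φ b / φ β * x i) = (∑ i, φ (c i) * (φ b * x i)) / φ β := by
          rw [Finset.sum_div]
          refine Finset.sum_congr rfl fun i _ => ?_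
          ring
      _ = 1 := by rw [h2, div_self hφβ]

theorem main_PID : S_PID := by
  intro k _ _ halg n T
  have : FiniteDimensional ℚ (IntermediateField.adjoin ℚ (T : Set k)) :=
    IntermediateField.finiteDimensional_adjoin fun x _ => (halg x).isIntegral
  have : NumberField (IntermediateField.adjoin ℚ (T : Set k)) :=
    { to_charZero := inferInstance, to_finiteDimensional := this }
  obtain ⟨T', hT'⟩ := pid_aux (IntermediateField.adjoin ℚ (T : Set k)) n
  refine ⟨T', fun x hx hxT => hT' x hx fun i => ?_⟩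
  have h1 : Subfield.closure (T : Set k) ≤
      (IntermediateField.adjoin ℚ (T : Set k)).toSubfield :=
    Subfield.closure_le.2 (IntermediateField.subset_adjoin ℚ (T : Set k))
  exact h1 (hxT i)

end Pool.Agent.N323.IS
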